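import Pool.Agent.H37.QC.Moll

/-! M9: positivity of the weak differential and the Jacobian bound (MP_1fd04d_an). -/

set_option autoImplicit false

namespace Pool.Agent.H56.QC

open MeasureTheory Set Filter Topology Metric
open scoped RealInnerProductSpace ENNReal

variable {n : ℕ}

/-- The gradient of a convex function is a subgradient. -/
theorem jac_subgrad {u : E n → ℝ} {F : E n → E n} (hu : ∀ x, HasGradientAt u (F x) x)
    (hc : ConvexOn ℝ univ u) (x y : E n) : u x + ⟪F x, y - x⟫ ≤ u y := by
  have hg : ConvexOn ℝ univ (u ∘ AffineMap.lineMap (k := ℝ) x y) := by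
    have := hc.comp_affineMap (AffineMap.lineMap (k := ℝ) x y)
    simpa using this
  have hl : HasDerivAt (AffineMap.lineMap (k := ℝ) x y) (y - x) 0 :=
    AffineMap.hasDerivAt_lineMap
  have h0 : (AffineMap.lineMap (k := ℝ) x y) (0 : ℝ) = x := AffineMap.lineMap_apply_zero x y
  have h1 : (AffineMap.lineMap (k := ℝ) x y) (1 : ℝ) = y := AffineMap.lineMap_apply_one x y
  have hd : HasDerivAt (u ∘ AffineMap.lineMap (k := ℝ) x y) ⟪F x, y - x⟫ 0 := by
    have := ((hu x).hasFDerivAt)
    rw [← h0] at this
    have h2 := this.comp_hasDerivAt (0 : ℝ) hl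
    simpa [h0] using h2
  have := hg.le_slope_of_hasDerivAt (mem_univ 0) (mem_univ 1) one_pos hd
  rw [slope_def_field] at this
  simp only [Function.comp_apply, h0, h1, sub_zero, div_one] at this
  linarith

/-- The gradient of a convex function is monotone. -/
theorem jac_mono {u : E n → ℝ} {F : E n → E n} (hu : ∀ x, HasGradientAt u (F x) x)
    (hc : ConvexOn ℝ univ u) (x y : E n) : 0 ≤ ⟪F x - F y, x - y⟫ := by
  have h1 := jac_subgrad hu hc x y
  have h2 := jac_subgrad hu hc y x
  have e : y - x = -(x - y) := by abel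
  rw [e, inner_neg_right] at h1
  rw [inner_sub_left]
  linarith

theorem jac_phi_cs (k : ℕ) : HasCompactSupport (phi n k) :=
  HasCompactSupport.of_support_subset_isCompact (isCompact_closedBall 0 (1 / ((k : ℝ) + 1)))
    ((subset_tsupport _).trans (phi_tsupport k))

theorem jac_integrable {V : Type*} [NormedAddCommGroup V] [NormedSpace ℝ V]
    (k : ℕ) {f : E n → V} (hf : Continuous f) (x : E n) :
    Integrable (fun y => phi n k y • f (x - y)) := by
  refine Continuous.integrable_of_hasCompactSupport ?_ ?_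
  · exact (phi_contDiff k).continuous.smul (hf.comp (continuous_const.sub continuous_id))
  · exact (jac_phi_cs k).smul_right

/-- Mollification preserves convexity. -/
theorem jac_moll_convex (k : ℕ) {u : E n → ℝ} (hu : Continuous u) (hc : ConvexOn ℝ univ u) :
    ConvexOn ℝ univ (moll k u) := by
  refine ⟨convex_univ, fun x _ y _ a b ha hb hab => ?_⟩
  unfold moll
  rw [smul_eq_mul, smul_eq_mul, ← integral_const_mul, ← integral_const_mul,
    ← integral_add ((jac_integrable k hu x).const_mul a) ((jac_integrable k hu y).const_mul b)]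
  refine integral_mono (jac_integrable k hu _)
    (((jac_integrable k hu x).const_mul a).add ((jac_integrable k hu y).const_mul b)) fun z => ?_
  have e : a • x + b • y - z = a • (x - z) + b • (y - z) := by
    have : z = a • z + b • z := by rw [← add_smul, hab, one_smul]
    rw [smul_sub, smul_sub]
    nth_rewrite 1 [this]
    abel
  have h := hc.2 (mem_univ (x - z)) (mem_univ (y - z)) ha hb hab
  rw [← e, smul_eq_mul, smul_eq_mul] at h
  have h2 := mul_le_mul_of_nonneg_left h (phi_nonneg (n := n) k z)
  simp only [smul_eq_mul]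
  calc phi n k z * u (a • x + b • y - z) ≤ phi n k z * (a * u (x - z) + b * u (y - z)) := h2
    _ = a * (phi n k z * u (x - z)) + b * (phi n k z * u (y - z)) := by ring

/-- The differential of the mollification is positive semidefinite. -/
theorem jac_moll_nonneg (k : ℕ) {U : E n → ℝ} {F : E n → E n} (hFc : Continuous F)
    (hU : ∀ x, HasGradientAt U (F x) x) (hconv : ConvexOn ℝ univ U) (x v : E n) :
    0 ≤ ⟪fderiv ℝ (moll k F) x v, v⟫ := by
  have hUc : Continuous U := continuous_iff_continuousAt.2 fun x => (hU x).continuousAt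
  have hgr := moll_gradient k U F hFc hU
  have hcv := jac_moll_convex k hUc hconv
  have hd : DifferentiableAt ℝ (moll k F) x :=
    (moll_contDiff k F hFc.locallyIntegrable).differentiable (by simp) x
  have hl : HasDerivAt (fun t : ℝ => x + t • v) v 0 := by
    simpa using ((hasDerivAt_id (0 : ℝ)).smul_const v).const_add x
  have h1 : HasDerivAt (fun t : ℝ => moll k F (x + t • v)) (fderiv ℝ (moll k F) x v) 0 := by
    have h2 : HasFDerivAt (moll k F) (fderiv ℝ (moll k F) x) (x + (0 : ℝ) • v) := by
      simpa using hd.hasFDerivAt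
    exact h2.comp_hasDerivAt (0 : ℝ) hl
  have h2 : HasDerivAt (fun t : ℝ => ⟪moll k F (x + t • v), v⟫)
      ⟪fderiv ℝ (moll k F) x v, v⟫ 0 := by
    simpa using h1.inner ℝ (hasDerivAt_const (0 : ℝ) v)
  refine h2.nonneg_of_monotone fun s t hst => ?_
  rcases hst.eq_or_lt with rfl | hst
  · exact le_rfl
  have h3 := jac_mono hgr hcv (x + t • v) (x + s • v)
  have e : x + t • v - (x + s • v) = (t - s) • v := by rw [sub_smul]; abel
  rw [e, inner_smul_right, inner_sub_left] at h3
  have h4 := nonneg_of_mul_nonneg_right h3 (sub_pos.2 hst)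
  simp only
  linarith

theorem weak_nonneg (U : E n → ℝ) (F : E n → E n) (hFc : Continuous F)
    (hU : ∀ x, HasGradientAt U (F x) x) (hconv : ConvexOn ℝ univ U)
    (G : E n → E n →L[ℝ] E n) (hw : WeakDiff (ball 0 1) F G) :
    ∀ᵐ x ∂(volume.restrict (ball (0 : E n) 1)), ∀ v : E n, 0 ≤ ⟪G x v, v⟫ := by
  filter_upwards [moll_tendsto (ball (0 : E n) 1) isOpen_ball F hFc.locallyIntegrable G hw]
    with x hx v
  have h1 : Tendsto (fun k => ⟪fderiv ℝ (moll k F) x v, v⟫) atTop (𝓝 ⟪G x v, v⟫) := by
    have h2 : Tendsto (fun k => fderiv ℝ (moll k F) x v) atTop (𝓝 (G x v)) :=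
      ((ContinuousLinearMap.apply ℝ (E n) v).continuous.tendsto (G x)).comp hx
    exact h2.inner tendsto_const_nhds
  exact ge_of_tendsto' h1 fun k => jac_moll_nonneg k hFc hU hconv x v

/-- The mollified map is injective on the set where its differential is invertible. -/
theorem jac_injOn (k : ℕ) {U : E n → ℝ} {F : E n → E n} (hFc : Continuous F)
    (hU : ∀ x, HasGradientAt U (F x) x) (hconv : ConvexOn ℝ univ U) :
    InjOn (moll k F) {x | (fderiv ℝ (moll k F) x).det ≠ 0} := by
  intro x hx x' _ hxx
  by_contra hne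
  apply hx
  have hUc : Continuous U := continuous_iff_continuousAt.2 fun x => (hU x).continuousAt
  have hgr := moll_gradient k U F hFc hU
  have hcv := jac_moll_convex k hUc hconv
  set u := moll k U with hu
  set q := moll k F x with hq
  -- all points of the segment are minimum points
  have hmin : ∀ t ∈ Icc (0 : ℝ) 1, moll k F (x + t • (x' - x)) = q := by
    intro t ht
    have hle : ∀ y, u (x + t • (x' - x)) - ⟪q, x + t • (x' - x)⟫ ≤ u y - ⟪q, y⟫ := by
      intro y
      have h1 := jac_subgrad hgr hcv x y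
      have h2 := jac_subgrad hgr hcv x' x
      rw [← hxx] at h2
      rw [← hq] at h1
      have h3 := hcv.2 (mem_univ x) (mem_univ x') (sub_nonneg.2 ht.2) ht.1 (by ring)
      have e : (1 - t) • x + t • x' = x + t • (x' - x) := by
        rw [sub_smul, one_smul, smul_sub]; abel
      rw [e, smul_eq_mul, smul_eq_mul] at h3
      rw [inner_sub_right] at h1 h2
      rw [inner_add_right, inner_smul_right, inner_sub_right]
      have h4 := mul_nonneg ht.1 (sub_nonneg.2 h2)
      nlinarith
    have hg : HasGradientAt (fun y => u y - ⟪q, y⟫) (moll k F (x + t • (x' - x)) - q)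
        (x + t • (x' - x)) := by
      have h1 := (hgr (x + t • (x' - x))).hasFDerivAt
      have h2 : HasFDerivAt (fun y : E n => ⟪q, y⟫) (innerSL ℝ q) (x + t • (x' - x)) :=
        (innerSL ℝ q).hasFDerivAt
      have h3 := h1.sub h2
      rw [hasGradientAt_iff_hasFDerivAt, map_sub]
      exact h3
    have hloc : IsLocalMin (fun y => u y - ⟪q, y⟫) (x + t • (x' - x)) :=
      Filter.Eventually.of_forall hle
    have h0 := hloc.hasFDerivAt_eq_zero hg.hasFDerivAt
    have h1 : moll k F (x + t • (x' - x)) - q = 0 := by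
      have := congrArg (fun L : E n →L[ℝ] ℝ => (InnerProductSpace.toDual ℝ (E n)).symm L) h0
      simpa using this
    exact sub_eq_zero.1 h1
  have hd : DifferentiableAt ℝ (moll k F) x :=
    (moll_contDiff k F hFc.locallyIntegrable).differentiable (by simp) x
  have hl : HasDerivAt (fun t : ℝ => x + t • (x' - x)) (x' - x) 0 := by
    simpa using ((hasDerivAt_id (0 : ℝ)).smul_const (x' - x)).const_add x
  have h1 : HasDerivAt (fun t : ℝ => moll k F (x + t • (x' - x)))
      (fderiv ℝ (moll k F) x (x' - x)) 0 := by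
    have h2 : HasFDerivAt (moll k F) (fderiv ℝ (moll k F) x) (x + (0 : ℝ) • (x' - x)) := by
      simpa using hd.hasFDerivAt
    exact h2.comp_hasDerivAt (0 : ℝ) hl
  have h2 : HasDerivWithinAt (fun _ : ℝ => q) (fderiv ℝ (moll k F) x (x' - x)) (Icc 0 1) 0 :=
    h1.hasDerivWithinAt.congr (fun t ht => (hmin t ht).symm)
      (hmin 0 (left_mem_Icc.2 zero_le_one)).symm
  have h3 : fderiv ℝ (moll k F) x (x' - x) = 0 :=
    (uniqueDiffOn_Icc (zero_lt_one' ℝ) 0 (left_mem_Icc.2 zero_le_one)).eq_deriv _ h2
      (hasDerivWithinAt_const 0 (Icc 0 1) q)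
  change LinearMap.det (fderiv ℝ (moll k F) x : E n →ₗ[ℝ] E n) = 0
  rw [LinearMap.det_eq_zero_iff_ker_ne_bot]
  intro hker
  apply hne
  have h4 : x' - x ∈ LinearMap.ker (fderiv ℝ (moll k F) x : E n →ₗ[ℝ] E n) := h3
  rw [hker, Submodule.mem_bot] at h4
  exact (sub_eq_zero.1 h4).symm

theorem jac_maps (k : ℕ) {F : E n → E n}
    (hmaps : MapsTo F (ball 0 1) (ball 0 1)) {r : ℝ} (hr : r + 1 / ((k : ℝ) + 1) ≤ 1)
    {x : E n} (hx : x ∈ ball (0 : E n) r) : moll k F x ∈ closedBall (0 : E n) 1 := by
  rw [mem_closedBall_zero_iff]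
  unfold moll
  have hi : Integrable (phi n k) :=
    (phi_contDiff k).continuous.integrable_of_hasCompactSupport (jac_phi_cs k)
  calc ‖∫ y, phi n k y • F (x - y)‖ ≤ ∫ y, phi n k y := by
        refine norm_integral_le_of_norm_le hi (Filter.Eventually.of_forall fun y => ?_)
        rw [norm_smul, Real.norm_of_nonneg (phi_nonneg k y)]
        by_cases hy : y ∈ closedBall (0 : E n) (1 / ((k : ℝ) + 1))
        · have h1 : F (x - y) ∈ ball (0 : E n) 1 := by
            apply hmaps
            rw [mem_ball_zero_iff]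
            rw [mem_closedBall_zero_iff] at hy
            rw [mem_ball_zero_iff] at hx
            calc ‖x - y‖ ≤ ‖x‖ + ‖y‖ := norm_sub_le _ _
              _ < r + 1 / ((k : ℝ) + 1) := by linarith
              _ ≤ 1 := hr
          rw [mem_ball_zero_iff] at h1
          exact mul_le_of_le_one_right (phi_nonneg k y) h1.le
        · have h0 : phi n k y = 0 := by
            by_contra h
            exact hy (phi_tsupport k (subset_tsupport _ h))
          rw [h0, zero_mul]
    _ = 1 := phi_integral k

/-- The Jacobian bound for the mollified maps. -/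
theorem jac_moll_bound (hn : 2 ≤ n) (k : ℕ) {U : E n → ℝ} {F : E n → E n} (hFc : Continuous F)
    (hU : ∀ x, HasGradientAt U (F x) x) (hconv : ConvexOn ℝ univ U)
    (hmaps : MapsTo F (ball 0 1) (ball 0 1)) {r : ℝ} (hr : r + 1 / ((k : ℝ) + 1) ≤ 1) :
    ∫⁻ x in ball (0 : E n) r, ENNReal.ofReal (fderiv ℝ (moll k F) x).det ≤
      volume (ball (0 : E n) 1) := by
  have : Nonempty (Fin n) := ⟨⟨0, by omega⟩⟩
  have hsm := moll_contDiff k F hFc.locallyIntegrable
  have hcd : Continuous fun x => (fderiv ℝ (moll k F) x).det :=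
    ContinuousLinearMap.continuous_det.comp (hsm.continuous_fderiv (by simp))
  set P : Set (E n) := {x | 0 < (fderiv ℝ (moll k F) x).det} with hP
  have hPm : MeasurableSet P := (isOpen_lt continuous_const hcd).measurableSet
  have h1 : ∫⁻ x in ball (0 : E n) r, ENNReal.ofReal (fderiv ℝ (moll k F) x).det ≤
      ∫⁻ x in P ∩ ball (0 : E n) r, ENNReal.ofReal |(fderiv ℝ (moll k F) x).det| := by
    rw [← Measure.restrict_restrict hPm, ← lintegral_indicator hPm]
    refine lintegral_mono fun x => ?_
    by_cases hx : x ∈ P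
    · rw [indicator_of_mem hx]
      exact ENNReal.ofReal_le_ofReal (le_abs_self _)
    · rw [indicator_of_notMem hx]
      simp only [hP, mem_ofPred_eq, not_lt] at hx
      rw [ENNReal.ofReal_of_nonpos hx]
  have h2 := lintegral_abs_det_fderiv_eq_addHaar_image volume
    (f := moll k F) (f' := fun x => fderiv ℝ (moll k F) x) (s := P ∩ ball (0 : E n) r)
    (hPm.inter measurableSet_ball)
    (fun x _ => ((hsm.differentiable (by simp)) x).hasFDerivAt.hasFDerivWithinAt)
    ((jac_injOn k hFc hU hconv).mono fun x hx => (ne_of_gt hx.1))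
  rw [h2] at h1
  refine h1.trans ?_
  rw [← Measure.addHaar_closedBall_eq_addHaar_ball volume (0 : E n) 1]
  refine measure_mono ?_
  rintro _ ⟨x, hx, rfl⟩
  exact jac_maps k hmaps hr hx.2

theorem jac_bound (hn : 2 ≤ n) (U : E n → ℝ) (F : E n → E n) (hFc : Continuous F)
    (hU : ∀ x, HasGradientAt U (F x) x) (hconv : ConvexOn ℝ univ U)
    (hmaps : MapsTo F (ball 0 1) (ball 0 1))
    (G : E n → E n →L[ℝ] E n) (hw : WeakDiff (ball 0 1) F G) :
    ∫⁻ x in ball (0 : E n) 1, ENNReal.ofReal (G x).det ≤ volume (ball (0 : E n) 1) := by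
  have key : ∀ m : ℕ, ∫⁻ x in ball (0 : E n) (1 - 1 / ((m : ℝ) + 1)),
      ENNReal.ofReal (G x).det ≤ volume (ball (0 : E n) 1) := by
    intro m
    set r : ℝ := 1 - 1 / ((m : ℝ) + 1) with hr
    have hm0 : (0 : ℝ) < 1 / ((m : ℝ) + 1) := by positivity
    have hsub : ball (0 : E n) r ⊆ ball (0 : E n) 1 := ball_subset_ball (by linarith)
    have hae : ∀ᵐ x ∂(volume.restrict (ball (0 : E n) r)),
        ENNReal.ofReal (G x).det =
          liminf (fun k => ENNReal.ofReal (fderiv ℝ (moll k F) x).det) atTop := by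
      have h1 := moll_tendsto (ball (0 : E n) 1) isOpen_ball F hFc.locallyIntegrable G hw
      have h2 := ae_mono (Measure.restrict_mono hsub le_rfl) h1
      filter_upwards [h2] with x hx
      have h3 : Tendsto (fun k => ENNReal.ofReal (fderiv ℝ (moll k F) x).det) atTop
          (𝓝 (ENNReal.ofReal (G x).det)) :=
        (ENNReal.continuous_ofReal.tendsto _).comp
          ((ContinuousLinearMap.continuous_det.tendsto (G x)).comp hx)
      exact h3.liminf_eq.symm
    rw [lintegral_congr_ae hae]
    refine (lintegral_liminf_le fun k => ?_).trans ?_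
    · have hsm := moll_contDiff k F hFc.locallyIntegrable
      exact (ENNReal.continuous_ofReal.comp (ContinuousLinearMap.continuous_det.comp
        (hsm.continuous_fderiv (by simp)))).measurable
    · refine liminf_le_of_frequently_le' (Eventually.frequently ?_)
      filter_upwards [eventually_ge_atTop m] with k hk
      refine jac_moll_bound hn k hFc hU hconv hmaps ?_
      have : 1 / ((k : ℝ) + 1) ≤ 1 / ((m : ℝ) + 1) := by
        have : (m : ℝ) ≤ k := by exact_mod_cast hk
        gcongr
      linarith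
  have hun : ball (0 : E n) 1 = ⋃ m : ℕ, ball (0 : E n) (1 - 1 / ((m : ℝ) + 1)) := by
    ext x
    simp only [mem_iUnion, mem_ball_zero_iff]
    constructor
    · intro hx
      obtain ⟨m, hm⟩ := exists_nat_one_div_lt (sub_pos.2 hx)
      exact ⟨m, by linarith⟩
    · rintro ⟨m, hm⟩
      have : (0 : ℝ) < 1 / ((m : ℝ) + 1) := by positivity
      linarith
  have hdir : Directed (· ⊆ ·) fun m : ℕ => ball (0 : E n) (1 - 1 / ((m : ℝ) + 1)) := by
    refine (monotone_nat_of_le_succ fun m => ball_subset_ball ?_).directed_le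
    have : 1 / (((m + 1 : ℕ) : ℝ) + 1) ≤ 1 / ((m : ℝ) + 1) := by
      push_cast
      gcongr
      linarith
    linarith
  rw [hun, setLIntegral_iUnion_of_directed _ hdir, ← hun]
  exact iSup_le key

end Pool.Agent.H56.QC
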