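import Pool.Agent.H20.QC.Theta

/-! The pointwise inequality `nBp p S ≤ cst n p * ∫ a ^ (p - n - 1) Theta (S - a)` (M5, M6 of
the theorem on quasiconformal gradient maps, MP_1fd04d_an). -/

set_option autoImplicit false

namespace Pool.Agent.H56.QC

open MeasureTheory Set Filter Topology
open scoped RealInnerProductSpace ENNReal

variable {n : ℕ}

/-- `n / Beta (p - n) (n + 1)` -/
noncomputable def cst (n : ℕ) (p : ℝ) : ℝ :=
  n * (Real.Gamma (p + 1) / (Real.Gamma (p - n) * Real.Gamma (n + 1)))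

theorem cst_pos (hn : 2 ≤ n) (p : ℝ) (hp : n < p) : 0 < cst n p := by
  unfold cst
  have h1 : (0 : ℝ) < n := by exact_mod_cast (by omega : 0 < n)
  have h2 := Real.Gamma_pos_of_pos (show (0 : ℝ) < p + 1 by linarith)
  have h3 := Real.Gamma_pos_of_pos (show (0 : ℝ) < p - n by linarith)
  have h4 := Real.Gamma_pos_of_pos (show (0 : ℝ) < (n : ℝ) + 1 by linarith)
  positivity

theorem layer_beta (α β : ℝ) (hα : 0 < α) (hβ : 0 < β) :
    ∫ x in (0 : ℝ)..1, x ^ (α - 1) * (1 - x) ^ (β - 1) =
      Real.Gamma α * Real.Gamma β / Real.Gamma (α + β) := by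
  have h := ProbabilityTheory.beta_eq_betaIntegralReal α β hα hβ
  rw [ProbabilityTheory.beta] at h
  rw [h, Complex.betaIntegral, intervalIntegral.integral_of_le (by norm_num),
    intervalIntegral.integral_of_le (by norm_num), ← RCLike.re_to_complex, ← integral_re]
  · refine (setIntegral_congr_fun measurableSet_Ioc fun x hx => ?_)
    obtain ⟨hx1, hx2⟩ := hx
    norm_cast
    rw [← Complex.ofReal_cpow, ← Complex.ofReal_cpow, RCLike.re_to_complex,
        Complex.re_mul_ofReal, Complex.ofReal_re]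
    all_goals linarith
  · have hc := Complex.betaIntegral_convergent (u := (α : ℂ)) (v := (β : ℂ)) (by simpa) (by simpa)
    rw [intervalIntegrable_iff_integrableOn_Ioc_of_le (by simp), IntegrableOn] at hc
    exact hc

/-- integer exponent, scaled to `[0, L]` -/
theorem layer_beta_nat (t : ℝ) (ht : 0 < t) (m : ℕ) (L : ℝ) (hL : 0 < L) :
    ∫ a in (0 : ℝ)..L, a ^ (t - 1) * (1 - a / L) ^ m =
      L ^ t * (Real.Gamma t * Real.Gamma (m + 1) / Real.Gamma (t + (m + 1))) := by
  have h1 := layer_beta t (m + 1) ht (by positivity)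
  have h2 : ∫ a in (0 : ℝ)..L, a ^ (t - 1) * (1 - a / L) ^ m =
      L * ∫ x in (0 : ℝ)..1, (L * x) ^ (t - 1) * (1 - (L * x) / L) ^ m := by
    have := intervalIntegral.smul_integral_comp_mul_left (a := (0 : ℝ)) (b := 1)
      (fun a : ℝ => a ^ (t - 1) * (1 - a / L) ^ m) L
    simp only [smul_eq_mul, mul_zero, mul_one] at this
    rw [this]
  have h3 : ∫ x in (0 : ℝ)..1, (L * x) ^ (t - 1) * (1 - (L * x) / L) ^ m =
      ∫ x in (0 : ℝ)..1, L ^ (t - 1) * (x ^ (t - 1) * (1 - x) ^ (((m : ℝ) + 1) - 1)) := by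
    refine intervalIntegral.integral_congr fun x hx => ?_
    rw [Set.uIcc_of_le (by norm_num)] at hx
    rw [Real.mul_rpow hL.le hx.1, mul_div_cancel_left₀ x hL.ne', add_sub_cancel_right,
      Real.rpow_natCast]
    ring
  rw [h2, h3, intervalIntegral.integral_const_mul, h1, ← mul_assoc]
  congr 1
  rw [Real.rpow_sub_one hL.ne']
  field_simp

theorem layer_beta1 (hn : 2 ≤ n) (p : ℝ) (hp : n < p) (L : ℝ) (hL : 0 < L) :
    cst n p * ∫ a in (0 : ℝ)..L, a ^ (p - n - 1) * (1 - a / L) ^ (n - 1) = p * L ^ (p - n) := by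
  rw [layer_beta_nat (p - n) (by linarith) (n - 1) L hL]
  have hn1 : (((n - 1 : ℕ) : ℝ)) = n - 1 := by
    rw [Nat.cast_sub (by omega)]; simp
  rw [hn1]
  have hn0 : (0 : ℝ) < n := by exact_mod_cast (by omega : 0 < n)
  have e1 : (n : ℝ) - 1 + 1 = n := by ring
  have e2 : p - n + (n - 1 + 1) = p := by ring
  rw [e2, e1]
  unfold cst
  have g1 : Real.Gamma (p + 1) = p * Real.Gamma p := Real.Gamma_add_one (by linarith)
  have g2 : Real.Gamma ((n : ℝ) + 1) = n * Real.Gamma n := Real.Gamma_add_one hn0.ne'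
  have h2 := Real.Gamma_pos_of_pos (show (0 : ℝ) < p by linarith)
  have h3 := Real.Gamma_pos_of_pos (show (0 : ℝ) < p - n by linarith)
  have h4 := Real.Gamma_pos_of_pos hn0
  rw [g1, g2]
  field_simp

theorem layer_beta0 (hn : 2 ≤ n) (p : ℝ) (hp : n < p) (L : ℝ) (hL : 0 < L) :
    cst n p * ∫ a in (0 : ℝ)..L, a ^ (p - n - 1) * (1 - a / L) ^ n = n * L ^ (p - n) := by
  rw [layer_beta_nat (p - n) (by linarith) n L hL]
  have e2 : p - n + ((n : ℝ) + 1) = p + 1 := by ring
  rw [e2]
  unfold cst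
  have h2 := Real.Gamma_pos_of_pos (show (0 : ℝ) < p + 1 by linarith)
  have h3 := Real.Gamma_pos_of_pos (show (0 : ℝ) < p - n by linarith)
  have h4 := Real.Gamma_pos_of_pos (show (0 : ℝ) < (n : ℝ) + 1 by positivity)
  field_simp

theorem cst_norm (hn : 2 ≤ n) (p : ℝ) (hp : n < p) :
    cst n p * ∫ a in (0:ℝ)..1, a ^ (p - n - 1) * (1 - a) ^ n = n := by
  have h := layer_beta0 hn p hp 1 one_pos
  simp only [div_one, Real.one_rpow, mul_one] at h
  exact h

/-! ### The function `th` -/

theorem layer_th_measurable (l : Fin n → ℝ) : Measurable (fun a => th l a) := by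
  unfold th
  refine Measurable.ite ?_ ?_ measurable_const
  · refine Set.OrdConnected.measurableSet ?_
    refine IsLowerSet.ordConnected ?_
    intro a b hba ha
    simp only [Set.mem_ofPred_eq] at ha ⊢
    refine le_trans (Finset.card_le_card ?_) ha
    intro i hi
    simp only [Finset.mem_filter, Finset.mem_univ, true_and] at hi ⊢
    exact hi.trans hba
  · fun_prop

theorem layer_th_abs (l : Fin n → ℝ) (M : ℝ) (hM : 0 ≤ M) (a : ℝ) (h : ∀ i, |l i - a| ≤ M) :
    |th l a| ≤ M ^ n := by
  unfold th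
  split_ifs
  · rw [Finset.abs_prod]
    calc ∏ i, |l i - a| ≤ ∏ _i : Fin n, M :=
          Finset.prod_le_prod (fun i _ => abs_nonneg _) (fun i _ => h i)
      _ = M ^ n := by simp
  · simpa using pow_nonneg hM n

theorem layer_th_integrable (l : Fin n → ℝ) (t : ℝ) (ht : 0 < t) (a b : ℝ) :
    IntervalIntegrable (fun x => x ^ (t - 1) * th l x) volume a b := by
  have h0 : IntervalIntegrable (fun x : ℝ => x ^ (t - 1)) volume a b :=
    intervalIntegral.intervalIntegrable_rpow' (by linarith)
  obtain ⟨C, hC⟩ : ∃ C : ℝ, ∀ i, |l i| ≤ C := by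
    refine ⟨∑ i, |l i|, fun i => ?_⟩
    exact Finset.single_le_sum (f := fun i => |l i|) (fun i _ => abs_nonneg _) (Finset.mem_univ i)
  rw [intervalIntegrable_iff] at h0 ⊢
  refine Integrable.mul_bdd (c := (max C 0 + max |a| |b|) ^ n) h0
    (layer_th_measurable l).aestronglyMeasurable ?_
  refine (ae_restrict_iff' measurableSet_uIoc).2 (Eventually.of_forall fun x hx => ?_)
  rw [Real.norm_eq_abs]
  refine layer_th_abs l _ (by positivity) x fun i => ?_
  have hx' : |x| ≤ max |a| |b| := by
    have := Set.uIoc_subset_uIcc hx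
    rw [Set.mem_uIcc] at this
    rcases this with h | h
    · exact abs_le_max_abs_abs h.1 h.2
    · rw [max_comm]; exact abs_le_max_abs_abs h.1 h.2
  calc |l i - x| ≤ |l i| + |x| := abs_sub _ _
    _ ≤ max C 0 + max |a| |b| := add_le_add ((hC i).trans (le_max_left _ _)) hx'

theorem layer_card_update (l : Fin n → ℝ) (L : ℝ) (j : Fin n) (a : ℝ) (haL : a < L) :
    (Finset.univ.filter (fun i => Function.update l j L i ≤ a)).card =
      ((Finset.univ.erase j).filter (fun i => l i ≤ a)).card := by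
  congr 1
  ext i
  simp only [Finset.mem_filter, Finset.mem_univ, true_and, Finset.mem_erase]
  by_cases h : i = j
  · subst h; simp [haL]
  · simp [h]

theorem layer_card (l : Fin n → ℝ) (j : Fin n) (a : ℝ) :
    (Finset.univ.filter (fun i => l i ≤ a)).card =
      (if l j ≤ a then 1 else 0) + ((Finset.univ.erase j).filter (fun i => l i ≤ a)).card := by
  rw [Finset.card_filter, Finset.card_filter]
  exact (Finset.add_sum_erase Finset.univ (fun i => if l i ≤ a then 1 else 0)
    (Finset.mem_univ j)).symm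

theorem layer_prod_update (l : Fin n → ℝ) (L : ℝ) (j : Fin n) (a : ℝ) :
    ∏ i, (Function.update l j L i - a) = (L - a) * ∏ i ∈ Finset.univ.erase j, (l i - a) := by
  rw [← Finset.mul_prod_erase Finset.univ _ (Finset.mem_univ j), Function.update_self]
  congr 1
  refine Finset.prod_congr rfl fun i hi => ?_
  rw [Function.update_of_ne (Finset.ne_of_mem_erase hi)]

/-- if exactly one of the factors is `≤ 0`, so is the product -/
theorem layer_prod_nonpos (s : Finset (Fin n)) (l : Fin n → ℝ) (a : ℝ)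
    (h : (s.filter (fun i => l i ≤ a)).card = 1) : ∏ i ∈ s, (l i - a) ≤ 0 := by
  obtain ⟨i, hi⟩ := Finset.card_eq_one.1 h
  have him : i ∈ s.filter (fun i => l i ≤ a) := by rw [hi]; simp
  rw [Finset.mem_filter] at him
  rw [← Finset.mul_prod_erase s _ him.1]
  refine mul_nonpos_of_nonpos_of_nonneg (by linarith [him.2]) (Finset.prod_nonneg fun k hk => ?_)
  rw [Finset.mem_erase] at hk
  by_contra hneg
  push Not at hneg
  have : k ∈ s.filter (fun i => l i ≤ a) := Finset.mem_filter.2 ⟨hk.2, by linarith⟩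
  rw [hi, Finset.mem_singleton] at this
  exact hk.1 this

theorem layer_step (l : Fin n → ℝ) (L : ℝ) (hl0 : ∀ i, 0 ≤ l i) (hlL : ∀ i, l i ≤ L)
    (j : Fin n) (a : ℝ) (ha : 0 < a) (haL : a < L) :
    th (Function.update l j L) a - th l a ≤
      (L - l j) * (∏ i ∈ Finset.univ.erase j, l i) * (1 - a / L) ^ (n - 1) := by
  have hL : 0 < L := ha.trans haL
  have hR : 0 ≤ (L - l j) * (∏ i ∈ Finset.univ.erase j, l i) * (1 - a / L) ^ (n - 1) := by
    have h1 : 0 ≤ L - l j := by linarith [hlL j]
    have h2 : 0 ≤ ∏ i ∈ Finset.univ.erase j, l i := Finset.prod_nonneg fun i _ => hl0 i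
    have h3 : 0 ≤ 1 - a / L := by
      rw [sub_nonneg, div_le_one hL]; exact haL.le
    positivity
  unfold th
  rw [layer_card_update l L j a haL, layer_card l j a, layer_prod_update,
    ← Finset.mul_prod_erase Finset.univ (fun i => l i - a) (Finset.mem_univ j)]
  set c := ((Finset.univ.erase j).filter (fun i => l i ≤ a)).card with hc
  set P := ∏ i ∈ Finset.univ.erase j, (l i - a) with hP
  rcases Nat.lt_trichotomy c 1 with h0 | h1 | h2
  · have hc0 : c = 0 := by omega
    have hpos : ∀ i ∈ Finset.univ.erase j, a < l i := by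
      intro i hi
      rw [hc0] at hc
      have := Finset.card_eq_zero.1 hc.symm
      by_contra hneg
      push Not at hneg
      have h4 : i ∈ (Finset.univ.erase j).filter (fun i => l i ≤ a) :=
        Finset.mem_filter.2 ⟨hi, hneg⟩
      rw [this] at h4
      simp at h4
    have hPle : P ≤ (∏ i ∈ Finset.univ.erase j, l i) * (1 - a / L) ^ (n - 1) := by
      have hcard : (Finset.univ.erase j).card = n - 1 := by
        rw [Finset.card_erase_of_mem (Finset.mem_univ j)]; simp
      rw [hP, ← hcard, ← Finset.prod_const, ← Finset.prod_mul_distrib]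
      refine Finset.prod_le_prod (fun i hi => by linarith [hpos i hi]) fun i hi => ?_
      have : l i * a / L ≤ a := by
        rw [div_le_iff₀ hL]
        nlinarith [hlL i]
      calc l i - a ≤ l i - l i * a / L := by linarith
        _ = l i * (1 - a / L) := by ring
    rw [hc0]
    have e1 : (if (0 : ℕ) ≤ 1 then (L - a) * P else 0) = (L - a) * P := by simp
    have e2 : (if ((if l j ≤ a then 1 else 0) + 0 : ℕ) ≤ 1 then (l j - a) * P else 0) =
        (l j - a) * P := by
      rw [if_pos]
      split_ifs <;> norm_num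
    rw [e1, e2]
    calc (L - a) * P - (l j - a) * P = (L - l j) * P := by ring
      _ ≤ (L - l j) * ((∏ i ∈ Finset.univ.erase j, l i) * (1 - a / L) ^ (n - 1)) :=
          mul_le_mul_of_nonneg_left hPle (by linarith [hlL j])
      _ = _ := by ring
  · have hPle : P ≤ 0 := layer_prod_nonpos _ l a (hc.symm.trans h1)
    refine le_trans ?_ hR
    rw [h1]
    by_cases hj : l j ≤ a
    · simp only [hj, if_true]
      norm_num
      exact mul_nonpos_of_nonneg_of_nonpos (by linarith) hPle
    · simp only [hj, if_false]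
      norm_num
      have := mul_nonpos_of_nonneg_of_nonpos (show 0 ≤ L - l j by linarith [hlL j]) hPle
      nlinarith
  · refine le_trans (le_of_eq ?_) hR
    have e1 : ¬ (c ≤ 1) := by omega
    have e2 : ¬ ((if l j ≤ a then 1 else 0) + c ≤ 1) := by omega
    rw [if_neg e1, if_neg e2, sub_zero]

/-- the defect decreases when a value is raised to `L` -/
theorem layer_raise (hn : 2 ≤ n) (p : ℝ) (hp : n < p) (l : Fin n → ℝ) (L : ℝ) (hL : 0 < L)
    (hl0 : ∀ i, 0 ≤ l i) (hlL : ∀ i, l i ≤ L) (j : Fin n) :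
    cst n p * (∫ a in (0 : ℝ)..L, a ^ (p - n - 1) * th (Function.update l j L) a)
        - p * L ^ (p - n) * ∏ i, Function.update l j L i ≤
      cst n p * (∫ a in (0 : ℝ)..L, a ^ (p - n - 1) * th l a) - p * L ^ (p - n) * ∏ i, l i := by
  have ht : 0 < p - n := by linarith
  have h1 : (∫ a in (0 : ℝ)..L, a ^ (p - n - 1) * th (Function.update l j L) a) -
      (∫ a in (0 : ℝ)..L, a ^ (p - n - 1) * th l a) ≤
      ∫ a in (0 : ℝ)..L, ((L - l j) * (∏ i ∈ Finset.univ.erase j, l i)) *
        (a ^ (p - n - 1) * (1 - a / L) ^ (n - 1)) := by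
    rw [← intervalIntegral.integral_sub (layer_th_integrable _ _ ht _ _)
      (layer_th_integrable _ _ ht _ _)]
    refine intervalIntegral.integral_mono_on_of_le_Ioo hL.le
      ((layer_th_integrable _ _ ht _ _).sub (layer_th_integrable _ _ ht _ _)) ?_ ?_
    · refine IntervalIntegrable.const_mul ?_ _
      refine IntervalIntegrable.mul_continuousOn
        (intervalIntegral.intervalIntegrable_rpow' (by linarith)) ?_
      fun_prop
    · intro a ha
      have h2 := layer_step l L hl0 hlL j a ha.1 ha.2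
      have h3 : 0 ≤ a ^ (p - n - 1) := Real.rpow_nonneg ha.1.le _
      calc a ^ (p - n - 1) * th (Function.update l j L) a - a ^ (p - n - 1) * th l a
          = a ^ (p - n - 1) * (th (Function.update l j L) a - th l a) := by ring
        _ ≤ a ^ (p - n - 1) *
            ((L - l j) * (∏ i ∈ Finset.univ.erase j, l i) * (1 - a / L) ^ (n - 1)) :=
              mul_le_mul_of_nonneg_left h2 h3
        _ = _ := by ring
  rw [intervalIntegral.integral_const_mul] at h1
  have h2 := mul_le_mul_of_nonneg_left h1 (cst_pos hn p hp).le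
  have h3 := layer_beta1 hn p hp L hL
  have h4 : ∏ i, Function.update l j L i = L * ∏ i ∈ Finset.univ.erase j, l i := by
    have := layer_prod_update l L j 0
    simpa using this
  have h5 : ∏ i, l i = l j * ∏ i ∈ Finset.univ.erase j, l i :=
    (Finset.mul_prod_erase Finset.univ l (Finset.mem_univ j)).symm
  rw [h4, h5]
  have h6 : cst n p * ((L - l j) * (∏ i ∈ Finset.univ.erase j, l i) *
      ∫ a in (0 : ℝ)..L, a ^ (p - n - 1) * (1 - a / L) ^ (n - 1)) =
      (L - l j) * (∏ i ∈ Finset.univ.erase j, l i) * (p * L ^ (p - n)) := by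
    rw [← h3]; ring
  rw [h6] at h2
  nlinarith [h2]

theorem layer_const (hn : 2 ≤ n) (p : ℝ) (hp : n < p) (L : ℝ) (hL : 0 < L) :
    cst n p * (∫ a in (0 : ℝ)..L, a ^ (p - n - 1) * th (fun _ : Fin n => L) a) =
      n * L ^ (p - n) * L ^ n := by
  have h1 : ∫ a in (0 : ℝ)..L, a ^ (p - n - 1) * th (fun _ : Fin n => L) a =
      ∫ a in (0 : ℝ)..L, L ^ n * (a ^ (p - n - 1) * (1 - a / L) ^ n) := by
    rw [intervalIntegral.integral_of_le hL.le, intervalIntegral.integral_of_le hL.le,
      integral_Ioc_eq_integral_Ioo, integral_Ioc_eq_integral_Ioo]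
    refine setIntegral_congr_fun measurableSet_Ioo fun a ha => ?_
    have h2 : th (fun _ : Fin n => L) a = (L - a) ^ n := by
      unfold th
      have : (Finset.univ.filter (fun _ : Fin n => L ≤ a)) = ∅ := by
        rw [Finset.filter_eq_empty_iff]
        intro i _
        exact not_le.2 ha.2
      rw [this]
      simp
    rw [h2]
    have h3 : L - a = L * (1 - a / L) := by field_simp
    rw [h3, mul_pow]
    ring
  rw [h1, intervalIntegral.integral_const_mul]
  have := layer_beta0 hn p hp L hL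
  calc cst n p * (L ^ n * ∫ a in (0 : ℝ)..L, a ^ (p - n - 1) * (1 - a / L) ^ n)
      = L ^ n * (cst n p * ∫ a in (0 : ℝ)..L, a ^ (p - n - 1) * (1 - a / L) ^ n) := by ring
    _ = _ := by rw [this]; ring

/-- the pointwise inequality for a tuple of values in `[0, L]` -/
theorem layer_main (hn : 2 ≤ n) (p : ℝ) (hp : n < p) (l : Fin n → ℝ) (L : ℝ) (hL : 0 < L)
    (hl0 : ∀ i, 0 ≤ l i) (hlL : ∀ i, l i ≤ L) :
    (p * ∏ i, l i + (n - p) * L ^ n) * L ^ (p - n) ≤
      cst n p * ∫ a in (0 : ℝ)..L, a ^ (p - n - 1) * th l a := by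
  have key : ∀ s : Finset (Fin n),
      cst n p * (∫ a in (0 : ℝ)..L, a ^ (p - n - 1) * th (fun i => if i ∈ s then L else l i) a)
        - p * L ^ (p - n) * ∏ i, (if i ∈ s then L else l i) ≤
      cst n p * (∫ a in (0 : ℝ)..L, a ^ (p - n - 1) * th l a) - p * L ^ (p - n) * ∏ i, l i := by
    intro s
    induction s using Finset.induction_on with
    | empty => simp
    | insert j s hj ih =>
      refine le_trans ?_ ih
      have h := layer_raise hn p hp (fun i => if i ∈ s then L else l i) L hL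
        (fun i => by split_ifs; exacts [hL.le, hl0 i])
        (fun i => by split_ifs; exacts [le_rfl, hlL i]) j
      have he : Function.update (fun i => if i ∈ s then L else l i) j L =
          fun i => if i ∈ insert j s then L else l i := by
        funext i
        by_cases hi : i = j
        · subst hi; simp
        · simp [hi]
      rw [he] at h
      exact h
  have h := key Finset.univ
  simp only [Finset.mem_univ, if_true] at h
  rw [layer_const hn p hp L hL] at h
  simp only [Finset.prod_const, Finset.card_univ, Fintype.card_fin] at h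
  nlinarith [h]

/-- `th l a ≤ 0` as soon as one of the `l i` is `≤ a` -/
theorem layer_th_nonpos (l : Fin n → ℝ) (a : ℝ) (i : Fin n) (hi : l i ≤ a) : th l a ≤ 0 := by
  unfold th
  split_ifs with h
  · refine layer_prod_nonpos _ l a ?_
    have : i ∈ Finset.univ.filter (fun i => l i ≤ a) := by simp [hi]
    have h2 := Finset.card_pos.2 ⟨i, this⟩
    omega
  · exact le_rfl

theorem layer_th_nonneg (l : Fin n → ℝ) (a : ℝ) (h : ∀ i, a ≤ l i) : 0 ≤ th l a := by
  unfold th
  split_ifs
  · exact Finset.prod_nonneg fun i _ => by linarith [h i]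
  · exact le_rfl

/-- `th l a = 0` beyond the largest value -/
theorem layer_th_zero (hn : 2 ≤ n) (l : Fin n → ℝ) (a : ℝ) (h : ∀ i, l i ≤ a) : th l a = 0 := by
  unfold th
  rw [if_neg]
  have : (Finset.univ.filter (fun i => l i ≤ a)) = Finset.univ := by
    rw [Finset.filter_eq_self]; intro i _; exact h i
  rw [this]
  simp only [Finset.card_univ, Fintype.card_fin]
  omega

theorem layer_ext (hn : 2 ≤ n) (t : ℝ) (ht : 0 < t) (l : Fin n → ℝ) (L T : ℝ)
    (hlL : ∀ i, l i ≤ L) (hT : L ≤ T) :
    ∫ a in (0 : ℝ)..T, a ^ (t - 1) * th l a = ∫ a in (0 : ℝ)..L, a ^ (t - 1) * th l a := by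
  rw [← intervalIntegral.integral_add_adjacent_intervals (layer_th_integrable l t ht 0 L)
    (layer_th_integrable l t ht L T)]
  have : ∫ a in L..T, a ^ (t - 1) * th l a = 0 := by
    rw [intervalIntegral.integral_of_le hT]
    rw [setIntegral_congr_fun (g := fun _ => (0 : ℝ)) measurableSet_Ioc]
    · simp
    · intro a ha
      simp only
      rw [layer_th_zero hn l a fun i => (hlL i).trans ha.1.le, mul_zero]
  rw [this, add_zero]

theorem layer_eig_nonneg (S : E n →L[ℝ] E n) (hpos : ∀ v : E n, 0 ≤ ⟪S v, v⟫)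
    (b : OrthonormalBasis (Fin n) ℝ (E n)) (l : Fin n → ℝ) (h : ∀ i, S (b i) = l i • b i)
    (i : Fin n) : 0 ≤ l i := by
  have h1 := hpos (b i)
  rw [h i, real_inner_smul_left, real_inner_self_eq_norm_sq, b.orthonormal.1 i] at h1
  simpa using h1

theorem nBp_le (hn : 2 ≤ n) (p : ℝ) (hp : n < p) (S : E n →L[ℝ] E n) (hS : Sym S)
    (hpos : ∀ v : E n, 0 ≤ ⟪S v, v⟫) (T : ℝ) (hT0 : 0 < T) (hT : ‖S‖ ≤ T) :
    nBp p S ≤ cst n p * ∫ a in (0:ℝ)..T, a ^ (p - n - 1) * Theta (S - a • I n) := by
  obtain ⟨b, l, hb⟩ := exists_diag S hS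
  have hl0 := layer_eig_nonneg S hpos b l hb
  obtain ⟨hlL, _⟩ := norm_diag (by omega) S b l hb hl0
  simp only [theta_diag S b l hb]
  rw [layer_ext hn (p - n) (by linarith) l ‖S‖ T hlL hT]
  unfold nBp
  rw [det_diag S b l hb]
  rcases (norm_nonneg S).eq_or_lt with h0 | h0
  · rw [← h0]
    have : (0 : ℝ) ^ (p - n) = 0 := Real.zero_rpow (by linarith)
    rw [this]
    simp
  · exact layer_main hn p hp l ‖S‖ h0 hl0 hlL

theorem layer_nonneg (hn : 2 ≤ n) (p : ℝ) (hp : n < p) (S : E n →L[ℝ] E n) (hS : Sym S)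
    (hpos : ∀ v : E n, 0 ≤ ⟪S v, v⟫) (hB : 0 ≤ nBp p S) (T : ℝ) (hT0 : 0 < T) :
    0 ≤ ∫ a in (0:ℝ)..T, a ^ (p - n - 1) * Theta (S - a • I n) := by
  have big : ∀ T : ℝ, 0 < T → ‖S‖ ≤ T →
      0 ≤ ∫ a in (0:ℝ)..T, a ^ (p - n - 1) * Theta (S - a • I n) := by
    intro T hT0 hT
    have h1 := nBp_le hn p hp S hS hpos T hT0 hT
    exact nonneg_of_mul_nonneg_right (hB.trans h1) (cst_pos hn p hp)
  rcases le_or_gt ‖S‖ T with hT | hT
  · exact big T hT0 hT
  have h2 := big ‖S‖ (hT0.trans hT) le_rfl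
  obtain ⟨b, l, hb⟩ := exists_diag S hS
  simp only [theta_diag S b l hb] at h2 ⊢
  have ht : 0 < p - n := by linarith
  by_cases hm : ∀ i, T ≤ l i
  · refine intervalIntegral.integral_nonneg hT0.le fun a ha => ?_
    exact mul_nonneg (Real.rpow_nonneg ha.1 _) (layer_th_nonneg l a fun i => ha.2.trans (hm i))
  · push Not at hm
    obtain ⟨i, hi⟩ := hm
    have h3 := intervalIntegral.integral_add_adjacent_intervals
      (layer_th_integrable l (p - n) ht 0 T) (layer_th_integrable l (p - n) ht T ‖S‖)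
    have h4 : ∫ a in T..‖S‖, a ^ (p - n - 1) * th l a ≤ 0 := by
      have h5 : 0 ≤ ∫ a in T..‖S‖, -(a ^ (p - n - 1) * th l a) := by
        refine intervalIntegral.integral_nonneg hT.le fun a ha => ?_
        have h6 := layer_th_nonpos l a i (hi.le.trans ha.1)
        have h7 : 0 ≤ a ^ (p - n - 1) := Real.rpow_nonneg (hT0.le.trans ha.1) _
        nlinarith [mul_nonneg h7 (neg_nonneg.2 h6)]
      rw [intervalIntegral.integral_neg] at h5
      linarith
    linarith

end Pool.Agent.H56.QC
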